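import Mathlib
import Pool.Agent.V11217.CantorW

/-!
# A set of non-transversal jets that is not a countable union of `C¹` submanifolds

`X = Y = ℝ`, `p = 1`, `r = 2`: there is an embedded `C²` surface `A` in `J¹(ℝ,ℝ) = ℝ³` such that
the set `Ã ⊆ J²(ℝ,ℝ) = ℝ⁴` is not the union of countably many `C¹` submanifolds.
-/

namespace Pool.Agent.Results.MP_5de00f_gt.NotCountableUnion

open Set Filter Topology Pool.Agent.V11217.CantorW
open scoped ContDiff

noncomputable section

/-- The `p`-jet at `x` of `f : ℝ → ℝ`, in the standard coordinates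
`(x, f x, f' x, …, f^(p) x)` of `J^p(ℝ,ℝ) = ℝ^(p+2)`. -/
def jet (p : ℕ) (f : ℝ → ℝ) (x : ℝ) : Fin (p + 2) → ℝ :=
  Fin.cons x (fun k : Fin (p + 1) => iteratedDeriv k f x)

/-- `M` is an embedded `C^k` submanifold of codimension `m` of `ℝ^N` (here `k ≥ 1`): near each of
its points it is the zero set of a `C^k` submersion to `ℝ^m`. -/
def IsSubmanifold {N : ℕ} (k m : ℕ) (M : Set (Fin N → ℝ)) : Prop :=
  ∀ z ∈ M, ∃ (U : Set (Fin N → ℝ)) (G : (Fin N → ℝ) → (Fin m → ℝ)), IsOpen U ∧ z ∈ U ∧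
    ContDiffOn ℝ k G U ∧ (∀ y ∈ U, Function.Surjective (fderiv ℝ G y)) ∧
    M ∩ U = {y | y ∈ U ∧ G y = 0}

/-- The tangent vectors of `A` at `b`: velocities at time `0` of curves in `A` that pass through
`b` at time `0`. -/
def tangentVectors {N : ℕ} (A : Set (Fin N → ℝ)) (b : Fin N → ℝ) : Set (Fin N → ℝ) :=
  {v | ∃ γ : ℝ → (Fin N → ℝ), γ 0 = b ∧ HasDerivAt γ v 0 ∧ ∀ᶠ t in 𝓝 (0:ℝ), γ t ∈ A}

/-- The set `Ã ⊆ J^(p+1)(ℝ,ℝ)`: the jets `j^(p+1)_x f`, with `f` smooth, such that `j^p f` fails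
to be transverse to `A` at `x`. -/
def tilde (p : ℕ) (A : Set (Fin (p + 2) → ℝ)) : Set (Fin (p + 1 + 2) → ℝ) :=
  {z | ∃ (f : ℝ → ℝ) (x : ℝ), ContDiff ℝ ∞ f ∧ jet (p + 1) f x = z ∧ jet p f x ∈ A ∧
    Submodule.span ℝ {deriv (jet p f) x} ⊔
      Submodule.span ℝ (tangentVectors A (jet p f x)) ≠ ⊤}

/-- primitive of `w` -/
def c (x : ℝ) : ℝ := ∫ t in (0:ℝ)..x, w t

theorem hasDerivAt_c (x : ℝ) : HasDerivAt c (w x) x :=
  intervalIntegral.integral_hasDerivAt_right (contDiff_w.continuous.intervalIntegrable _ _)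
    (contDiff_w.continuous.stronglyMeasurableAtFilter _ _) contDiff_w.continuous.continuousAt

theorem contDiff_c : ContDiff ℝ 2 c := by
  have h : deriv c = w := by ext x; exact (hasDerivAt_c x).deriv
  rw [show (2 : ℕ∞ω) = 1 + 1 by norm_num, contDiff_succ_iff_deriv]
  refine ⟨fun x => (hasDerivAt_c x).differentiableAt, ?_, ?_⟩
  · intro h; simp at h
  · rw [h]; exact contDiff_w

/-- the surface -/
def A : Set (Fin 3 → ℝ) := {z | z 1 = z 0 * z 2 - (z 2)^2 / 2 + c (z 0)}

/-- its defining function -/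
def defn (z : Fin 3 → ℝ) : ℝ := z 1 - (z 0 * z 2 - (z 2)^2 / 2 + c (z 0))

theorem contDiff_defn : ContDiff ℝ 2 defn := by
  unfold defn
  have h0 : ContDiff ℝ 2 (fun z : Fin 3 → ℝ => z 0) := contDiff_apply ℝ ℝ 0
  have h1 : ContDiff ℝ 2 (fun z : Fin 3 → ℝ => z 1) := contDiff_apply ℝ ℝ 1
  have h2 : ContDiff ℝ 2 (fun z : Fin 3 → ℝ => z 2) := contDiff_apply ℝ ℝ 2
  exact h1.sub (((h0.mul h2).sub ((h2.pow 2).div_const 2)).add (contDiff_c.comp h0))

theorem A_submanifold : IsSubmanifold 2 1 A := by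
  intro z _
  refine ⟨Set.univ, fun z _ => defn z, isOpen_univ, mem_univ _, ?_, ?_, ?_⟩
  · rw [contDiffOn_univ]
    exact contDiff_pi.2 (fun _ => contDiff_defn)
  · intro y _ r
    have hd : HasFDerivAt (fun (z : Fin 3 → ℝ) (_ : Fin 1) => defn z)
        (fderiv ℝ (fun (z : Fin 3 → ℝ) (_ : Fin 1) => defn z) y) y := by
      apply DifferentiableAt.hasFDerivAt
      exact ((contDiff_pi.2 (fun _ => contDiff_defn)).differentiable (by norm_num)) y
    have hl : HasDerivAt (fun t : ℝ => y + t • (Pi.single (1 : Fin 3) (1:ℝ) : Fin 3 → ℝ))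
        (Pi.single (1 : Fin 3) (1:ℝ)) 0 := by
      have := ((hasDerivAt_id (0:ℝ)).smul_const
        (Pi.single (1 : Fin 3) (1:ℝ) : Fin 3 → ℝ)).const_add y
      simpa using this
    have h1 : HasDerivAt (fun t : ℝ => (fun _ : Fin 1 =>
        defn (y + t • (Pi.single (1 : Fin 3) (1:ℝ) : Fin 3 → ℝ))))
        (fderiv ℝ (fun (z : Fin 3 → ℝ) (_ : Fin 1) => defn z) y
          (Pi.single (1 : Fin 3) (1:ℝ))) 0 := by
      have hd' : HasFDerivAt (fun (z : Fin 3 → ℝ) (_ : Fin 1) => defn z)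
        (fderiv ℝ (fun (z : Fin 3 → ℝ) (_ : Fin 1) => defn z) y)
          (y + (0:ℝ) • (Pi.single (1 : Fin 3) (1:ℝ) : Fin 3 → ℝ)) := by simpa using hd
      exact hd'.comp_hasDerivAt (0:ℝ) hl
    have h2 : HasDerivAt (fun t : ℝ => (fun _ : Fin 1 =>
        defn (y + t • (Pi.single (1 : Fin 3) (1:ℝ) : Fin 3 → ℝ)))) (fun _ => 1) 0 := by
      rw [hasDerivAt_pi]
      intro _
      have : (fun t : ℝ => defn (y + t • (Pi.single (1 : Fin 3) (1:ℝ) : Fin 3 → ℝ))) =
          fun t => defn y + t := by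
        ext t
        simp [defn]
        ring
      rw [this]
      exact (hasDerivAt_id (0:ℝ)).const_add _
    have h3 := h1.unique h2
    refine ⟨r 0 • (Pi.single (1 : Fin 3) (1:ℝ)), ?_⟩
    rw [map_smul, h3]
    ext i
    simp [Subsingleton.elim i 0]
  · ext y
    simp only [inter_univ, mem_univ, true_and, mem_setOf_eq, A]
    constructor
    · intro h; funext _; simp [defn, h]
    · intro h
      have := congrFun h 0
      simp only [defn, Pi.zero_apply] at this
      linarith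

/-- the functional cutting out the tangent plane -/
def phi (b : Fin 3 → ℝ) : (Fin 3 → ℝ) →ₗ[ℝ] ℝ where
  toFun v := v 1 - (b 2 + w (b 0)) * v 0 - (b 0 - b 2) * v 2
  map_add' := by intro u v; simp; ring
  map_smul' := by intro r v; simp; ring

theorem phi_apply (b v : Fin 3 → ℝ) :
    phi b v = v 1 - (b 2 + w (b 0)) * v 0 - (b 0 - b 2) * v 2 := rfl

theorem tangent_of_phi {b v : Fin 3 → ℝ} (hb : b ∈ A) (hv : phi b v = 0) :
    v ∈ tangentVectors A b := by
  have hb' : b 1 = b 0 * b 2 - (b 2)^2 / 2 + c (b 0) := hb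
  rw [phi_apply] at hv
  refine ⟨fun t => ![b 0 + t * v 0,
    (b 0 + t * v 0) * (b 2 + t * v 2) - (b 2 + t * v 2)^2 / 2 + c (b 0 + t * v 0),
    b 2 + t * v 2], ?_, ?_, ?_⟩
  · ext i
    fin_cases i
    · simp
    · simp [hb']
    · simp
  · have h0 : HasDerivAt (fun t : ℝ => b 0 + t * v 0) (v 0) 0 := by
      simpa using ((hasDerivAt_id (0:ℝ)).mul_const (v 0)).const_add (b 0)
    have h2 : HasDerivAt (fun t : ℝ => b 2 + t * v 2) (v 2) 0 := by
      simpa using ((hasDerivAt_id (0:ℝ)).mul_const (v 2)).const_add (b 2)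
    have hc : HasDerivAt (fun t : ℝ => c (b 0 + t * v 0)) (w (b 0) * v 0) 0 := by
      have := (hasDerivAt_c (b 0 + 0 * v 0)).comp (0:ℝ) h0
      simpa [Function.comp_def] using this
    rw [hasDerivAt_pi]
    intro i
    fin_cases i
    · simpa using h0
    · have := ((h0.mul h2).sub ((h2.pow 2).div_const 2)).add hc
      simp only [Fin.mk_one, Matrix.cons_val_one, Matrix.cons_val_zero]
      refine this.congr_deriv ?_
      simp
      linarith
    · simpa using h2
  · refine Eventually.of_forall fun t => ?_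
    simp [A]

theorem phi_of_tangent {b v : Fin 3 → ℝ} (hv : v ∈ tangentVectors A b) : phi b v = 0 := by
  obtain ⟨γ, hγ0, hγ, hγA⟩ := hv
  rw [hasDerivAt_pi] at hγ
  have h0 := hγ 0
  have h1 := hγ 1
  have h2 := hγ 2
  have hc : HasDerivAt (fun t : ℝ => c (γ t 0)) (w (b 0) * v 0) 0 := by
    have := (hasDerivAt_c (γ 0 0)).comp (0:ℝ) h0
    rw [hγ0] at this
    exact this
  have h3 := h1.sub (((h0.mul h2).sub ((h2.pow 2).div_const 2)).add hc)
  have h4 : HasDerivAt (fun _ : ℝ => (0:ℝ)) 0 0 := hasDerivAt_const _ _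
  have h5 : HasDerivAt (fun t : ℝ => γ t 1 - (γ t 0 * γ t 2 - (γ t 2)^2/2 + c (γ t 0))) 0 0 := by
    refine h4.congr_of_eventuallyEq ?_
    filter_upwards [hγA] with t ht
    have ht' : γ t 1 = γ t 0 * γ t 2 - (γ t 2)^2 / 2 + c (γ t 0) := ht
    rw [ht']; ring
  have h6 := h3.unique h5
  rw [phi_apply]
  rw [hγ0] at h6
  simp at h6
  linarith

theorem jet1_apply (f : ℝ → ℝ) (x : ℝ) : jet 1 f x = ![x, f x, deriv f x] := by
  ext i
  fin_cases i
  · rfl
  · simp [jet]
  · change iteratedDeriv 1 f x = deriv f x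
    rw [iteratedDeriv_one]

theorem hasDerivAt_jet1 {f : ℝ → ℝ} (hf : ContDiff ℝ ∞ f) (x : ℝ) :
    HasDerivAt (jet 1 f) ![1, deriv f x, iteratedDeriv 2 f x] x := by
  have : jet 1 f = fun x => ![x, f x, deriv f x] := by ext x : 1; exact jet1_apply f x
  rw [this, hasDerivAt_pi]
  have hf1 : DifferentiableAt ℝ f x := (hf.differentiable (by simp)) x
  have hf2 : DifferentiableAt ℝ (deriv f) x := by
    have := hf.differentiable_iteratedDeriv 1 (by simp)
    rw [iteratedDeriv_one] at this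
    exact this x
  intro i
  fin_cases i
  · simpa using hasDerivAt_id' x
  · simpa using hf1.hasDerivAt
  · have := hf2.hasDerivAt
    simp only [Fin.reduceFinMk, Matrix.cons_val]
    rw [iteratedDeriv_succ, iteratedDeriv_one]
    exact this

/-- The equations satisfied by `Ã`. -/
theorem eq_of_mem_tilde {z : Fin 4 → ℝ} (hz : z ∈ tilde 1 A) :
    z 3 * (z 2 - z 0) = w (z 0) := by
  obtain ⟨f, x, hf, hjet, hA, hspan⟩ := hz
  have hz0 : z 0 = x := by rw [← hjet]; rfl
  have hz2 : z 2 = deriv f x := by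
    rw [← hjet]
    change iteratedDeriv 1 f x = _
    rw [iteratedDeriv_one]
  have hz3 : z 3 = iteratedDeriv 2 f x := by rw [← hjet]; rfl
  by_contra hne
  apply hspan
  rw [(hasDerivAt_jet1 hf x).deriv]
  set b := jet 1 f x with hb
  set E : Fin 3 → ℝ := ![1, deriv f x, iteratedDeriv 2 f x] with hE
  have hphiE : phi b E ≠ 0 := by
    rw [phi_apply, hb, jet1_apply]
    simp only [hE, Matrix.cons_val_zero, Matrix.cons_val_one, Matrix.cons_val]
    rw [hz0, hz2, hz3] at hne
    intro h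
    apply hne
    linarith
  rw [eq_top_iff]
  intro u _
  have hdecomp : u = (phi b u / phi b E) • E + (u - (phi b u / phi b E) • E) := by abel
  rw [hdecomp]
  apply Submodule.add_mem_sup
  · exact Submodule.smul_mem _ _ (Submodule.mem_span_singleton_self E)
  · apply Submodule.subset_span
    apply tangent_of_phi hA
    rw [map_sub, map_smul, smul_eq_mul, div_mul_cancel₀ _ hphiE, sub_self]

/-- the curve in `J²` -/
def rho (x : ℝ) : Fin 4 → ℝ := ![x, x^2/2 + c x, x, 0]

theorem rho_mem {x : ℝ} (hx : w x = 0) : rho x ∈ tilde 1 A := by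
  let f : ℝ → ℝ := fun t => x^2/2 + c x + x * (t - x)
  have hf : ContDiff ℝ ∞ f := by
    apply ContDiff.add contDiff_const
    exact contDiff_const.mul (contDiff_id.sub contDiff_const)
  have hf1 : deriv f = fun _ => x := by
    ext t
    have : HasDerivAt f x t := by
      have := (((hasDerivAt_id' t).sub_const x).const_mul x).const_add (x^2/2 + c x)
      exact this.congr_deriv (by simp)
    exact this.deriv
  have hf2 : iteratedDeriv 2 f x = 0 := by
    rw [iteratedDeriv_succ, iteratedDeriv_one, hf1]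
    simp
  have hfx : f x = x^2/2 + c x := by simp [f]
  refine ⟨f, x, hf, ?_, ?_, ?_⟩
  · ext i
    fin_cases i
    · rfl
    · change iteratedDeriv 0 f x = _
      simp [rho, hfx]
    · change iteratedDeriv 1 f x = _
      rw [iteratedDeriv_one, hf1]
      simp [rho]
    · change iteratedDeriv 2 f x = _
      rw [hf2]
      simp [rho]
  · rw [jet1_apply, hf1, hfx]
    simp [A]
    ring
  · intro htop
    have hle : Submodule.span ℝ {deriv (jet 1 f) x} ⊔
        Submodule.span ℝ (tangentVectors A (jet 1 f x)) ≤ LinearMap.ker (phi (jet 1 f x)) := by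
      apply sup_le
      · rw [Submodule.span_le, singleton_subset_iff, (hasDerivAt_jet1 hf x).deriv, hf1, hf2]
        rw [SetLike.mem_coe, LinearMap.mem_ker, phi_apply, jet1_apply, hf1]
        simp [hx]
      · rw [Submodule.span_le]
        intro v hv
        exact phi_of_tangent hv
    rw [htop, top_le_iff] at hle
    have : (Pi.single 1 1 : Fin 3 → ℝ) ∈ LinearMap.ker (phi (jet 1 f x)) := by
      rw [hle]; trivial
    rw [LinearMap.mem_ker, phi_apply] at this
    simp at this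

theorem hasDerivAt_rho {a : ℝ} (ha : w a = 0) : HasDerivAt rho ![1, a, 1, 0] a := by
  rw [hasDerivAt_pi]
  intro i
  fin_cases i
  · simpa [rho] using hasDerivAt_id' a
  · have := (((hasDerivAt_id' a).pow 2).div_const 2).add (hasDerivAt_c a)
    rw [ha] at this
    exact this.congr_deriv (by simp)
  · simpa [rho] using hasDerivAt_id' a
  · simpa [rho] using hasDerivAt_const a (0:ℝ)

theorem continuous_rho : Continuous rho := by
  have hc : Continuous c := contDiff_c.continuous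
  rw [continuous_pi_iff]
  intro i
  fin_cases i
  · simpa [rho] using continuous_id'
  · simp only [rho, Fin.mk_one, Matrix.cons_val_one, Matrix.cons_val_zero]
    fun_prop
  · simpa [rho] using continuous_id'
  · simpa [rho] using continuous_const

/-- The local contradiction. -/
theorem no_submanifold {m : ℕ} {M : Set (Fin 4 → ℝ)} (hM : IsSubmanifold 1 m M)
    (hsub : M ⊆ tilde 1 A) {e : ℕ → Bool} {n : ℕ} (h0 : e n = false)
    (h1 : ∀ i, n < i → e i = true)
    (hmem : ∀ e' : ℕ → Bool, (∀ i, i ≤ n → e' i = e i) → rho (Phi e') ∈ M) : False := by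
  set a := Phi e with ha
  have hwa : w a = 0 := w_Phi e
  have hp : rho a ∈ M := hmem e (fun _ _ => rfl)
  obtain ⟨U, G, hU, hpU, hG, hsurj, hMU⟩ := hM _ hp
  have hGp : G (rho a) = 0 := by
    have : rho a ∈ M ∩ U := ⟨hp, hpU⟩
    rw [hMU] at this
    exact this.2
  have hGat : ContDiffAt ℝ 1 G (rho a) := by
    have := hG.contDiffAt (hU.mem_nhds hpU)
    simpa using this
  have hGs : HasStrictFDerivAt G (fderiv ℝ G (rho a)) (rho a) :=
    hGat.hasStrictFDerivAt (by norm_num)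
  set G' := fderiv ℝ G (rho a) with hG'
  have hrange : G'.range = ⊤ := LinearMap.range_eq_top.2 (hsurj _ hpU)
  -- the approximating sequence
  let ek : ℕ → ℕ → Bool := fun k i => if i ≤ n then e i else decide (i ≤ n + k)
  have hek : Tendsto ek atTop (𝓝 e) := by
    rw [tendsto_pi_nhds]
    intro i
    apply tendsto_const_nhds.congr'
    filter_upwards [eventually_ge_atTop i] with k hk
    simp only [ek]
    split_ifs with hi
    · rfl
    · rw [h1 i (by omega)]
      symm
      simp only [decide_eq_true_eq]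
      omega
  have hekne : ∀ k, Phi (ek k) ≠ a := by
    intro k h
    have h2 := congrFun (Phi_injective h) (n + k + 1)
    rw [h1 (n + k + 1) (by omega)] at h2
    simp only [ek] at h2
    rw [if_neg (by omega)] at h2
    simp at h2
  have htend : Tendsto (fun k => Phi (ek k)) atTop (𝓝[≠] a) := by
    apply tendsto_nhdsWithin_of_tendsto_nhds_of_eventually_within
    · exact (continuous_Phi.tendsto e).comp hek
    · exact Eventually.of_forall hekne
  have hG0 : ∀ᶠ k in atTop, G (rho (Phi (ek k))) = 0 := by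
    have h2 : Tendsto (fun k => rho (Phi (ek k))) atTop (𝓝 (rho a)) :=
      (continuous_rho.tendsto a).comp (htend.mono_right nhdsWithin_le_nhds)
    filter_upwards [h2.eventually (hU.mem_nhds hpU)] with k hk
    have h3 : rho (Phi (ek k)) ∈ M ∩ U := by
      refine ⟨hmem _ (fun i hi => ?_), hk⟩
      simp [ek, hi]
    rw [hMU] at h3
    exact h3.2
  set v : Fin 4 → ℝ := ![1, a, 1, 0] with hv
  have hGv : G' v = 0 := by
    have h2 : HasDerivAt (fun x => G (rho x)) (G' v) a :=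
      hGs.hasFDerivAt.comp_hasDerivAt a (hasDerivAt_rho hwa)
    have h3 := h2.tendsto_slope.comp htend
    refine tendsto_nhds_unique h3 ?_
    apply tendsto_const_nhds.congr'
    filter_upwards [hG0] with k hk
    simp [slope, hk, hGp]
  let vk : G'.ker := ⟨v, hGv⟩
  let γ : ℝ → (Fin 4 → ℝ) := fun t => hGs.implicitFunction G G' hrange (G (rho a)) (t • vk)
  have hγ0 : γ 0 = rho a := by simp [γ]
  have hline : HasDerivAt (fun t : ℝ => t • vk) vk 0 := by
    simpa using (hasDerivAt_id (0:ℝ)).smul_const vk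
  have hγd : HasDerivAt γ v 0 := by
    have h2 := (hGs.to_implicitFunction hrange).hasFDerivAt
    have h2' : HasFDerivAt (hGs.implicitFunction G G' hrange (G (rho a))) G'.ker.subtypeL
        ((0:ℝ) • vk) := by simpa using h2
    exact h2'.comp_hasDerivAt (0:ℝ) hline
  have hγM : ∀ᶠ t in 𝓝 (0:ℝ), γ t ∈ M := by
    have h2 := hGs.map_implicitFunction_eq hrange
    have h3 : Tendsto (fun t : ℝ => (G (rho a), t • vk)) (𝓝 0) (𝓝 (G (rho a), 0)) := by
      apply Tendsto.prodMk_nhds tendsto_const_nhds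
      have : ContinuousAt (fun t : ℝ => t • vk) 0 := hline.continuousAt
      have h4 := this.tendsto
      simpa using h4
    have h5 : ContinuousAt γ 0 := hγd.continuousAt
    have h6 : ∀ᶠ t in 𝓝 (0:ℝ), γ t ∈ U := by
      apply h5.tendsto.eventually
      rw [hγ0]
      exact hU.mem_nhds hpU
    filter_upwards [h3.eventually h2, h6] with t ht htU
    have : γ t ∈ {y | y ∈ U ∧ G y = 0} := ⟨htU, by
      change G (γ t) = _ at ht
      rw [ht, hGp]⟩
    rw [← hMU] at this
    exact this.1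
  have hγeq : ∀ᶠ t in 𝓝 (0:ℝ), γ t 3 * (γ t 2 - γ t 0) = w (γ t 0) := by
    filter_upwards [hγM] with t ht
    exact eq_of_mem_tilde (hsub ht)
  rw [hasDerivAt_pi] at hγd
  have d0 : HasDerivAt (fun t => γ t 0) 1 0 := by simpa [hv] using hγd 0
  have d2 : HasDerivAt (fun t => γ t 2) 1 0 := by simpa [hv] using hγd 2
  have d3 : HasDerivAt (fun t => γ t 3) 0 0 := by simpa [hv] using hγd 3
  have v0 : γ 0 0 = a := by rw [hγ0]; rfl
  have v2 : γ 0 2 = a := by rw [hγ0]; rfl
  have v3 : γ 0 3 = 0 := by rw [hγ0]; rfl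
  -- slopes
  have s0 : Tendsto (fun t : ℝ => (γ t 0 - a) / t) (𝓝[>] 0) (𝓝 1) := by
    have := d0.tendsto_slope_zero_right
    simpa [v0, div_eq_inv_mul] using this
  have s2 : Tendsto (fun t : ℝ => (γ t 2 - γ t 0) / t) (𝓝[>] 0) (𝓝 0) := by
    have := (d2.sub d0).tendsto_slope_zero_right
    simpa [v0, v2, div_eq_inv_mul] using this
  have s3 : Tendsto (fun t : ℝ => γ t 3 / t) (𝓝[>] 0) (𝓝 0) := by
    have := d3.tendsto_slope_zero_right
    simpa [v3, div_eq_inv_mul] using this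
  obtain ⟨C, hC, hgrow⟩ := growth h0 h1
  have hτpos : ∀ᶠ t in 𝓝[>] (0:ℝ), 0 < γ t 0 - a := by
    filter_upwards [s0.eventually (lt_mem_nhds (show (0:ℝ) < 1 by norm_num)),
      self_mem_nhdsWithin] with t ht ht0
    have ht0' : (0:ℝ) < t := ht0
    have := mul_pos ht ht0'
    rwa [div_mul_cancel₀ _ ht0'.ne'] at this
  have hτ : Tendsto (fun t : ℝ => γ t 0 - a) (𝓝[>] 0) (𝓝[>] 0) := by
    apply tendsto_nhdsWithin_of_tendsto_nhds_of_eventually_within
    · have h2 : Tendsto (fun t : ℝ => γ t 0 - a) (𝓝 0) (𝓝 (γ 0 0 - a)) :=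
        (d0.continuousAt.tendsto).sub_const a
      rw [v0, sub_self] at h2
      exact h2.mono_left nhdsWithin_le_nhds
    · exact hτpos
  have hineq : ∀ᶠ t in 𝓝[>] (0:ℝ), C * ((γ t 0 - a) / t) ^ ((3:ℝ)/2) ≤
      (γ t 3 / t) * ((γ t 2 - γ t 0) / t) * t ^ ((1:ℝ)/2) := by
    filter_upwards [hτ.eventually hgrow, hγeq.filter_mono nhdsWithin_le_nhds, hτpos,
      self_mem_nhdsWithin] with t ht1 ht2 ht3 ht0
    have ht0' : (0:ℝ) < t := ht0
    rw [← ha, add_sub_cancel] at ht1
    rw [← ht2] at ht1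
    rw [Real.div_rpow ht3.le ht0'.le]
    have h5 : (0:ℝ) < t ^ ((3:ℝ)/2) := Real.rpow_pos_of_pos ht0' _
    have h6 : t * t = t ^ ((3:ℝ)/2) * t ^ ((1:ℝ)/2) := by
      rw [← Real.rpow_add ht0']
      norm_num
      ring
    rw [← mul_div_assoc, div_le_iff₀ h5]
    have h7 : (γ t 3 / t) * ((γ t 2 - γ t 0) / t) * t ^ ((1:ℝ)/2) * t ^ ((3:ℝ)/2) =
        γ t 3 * (γ t 2 - γ t 0) := by
      rw [mul_assoc, mul_comm (t ^ ((1:ℝ)/2)), ← h6]
      field_simp
    rw [h7]
    exact ht1
  have l1 : Tendsto (fun t : ℝ => C * ((γ t 0 - a) / t) ^ ((3:ℝ)/2)) (𝓝[>] 0)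
      (𝓝 (C * 1 ^ ((3:ℝ)/2))) :=
    (s0.rpow_const (Or.inl (by norm_num))).const_mul C
  have l2 : Tendsto (fun t : ℝ => (γ t 3 / t) * ((γ t 2 - γ t 0) / t) * t ^ ((1:ℝ)/2)) (𝓝[>] 0)
      (𝓝 (0 * 0 * 0 ^ ((1:ℝ)/2))) := by
    refine (s3.mul s2).mul ?_
    have : Tendsto (fun t : ℝ => t) (𝓝[>] 0) (𝓝 0) := nhdsWithin_le_nhds
    exact this.rpow_const (Or.inr (by norm_num))
  have := le_of_tendsto_of_tendsto l1 l2 hineq
  rw [Real.one_rpow] at this
  linarith

/-- The counterexample to Q1, with `X = Y = ℝ`, `p = 1`, `r = 2`: an embedded `C²` surface `A` in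
`J¹(ℝ,ℝ) = ℝ³` such that `Ã` is not the union of countably many embedded `C¹` submanifolds of
`J²(ℝ,ℝ) = ℝ⁴` (of any codimensions). -/
theorem result : ∃ A : Set (Fin 3 → ℝ), IsSubmanifold 2 1 A ∧
    ¬ ∃ M : ℕ → Set (Fin 4 → ℝ), (∀ i, ∃ m, IsSubmanifold 1 m (M i)) ∧
      ⋃ i, M i = tilde 1 A := by
  classical
  refine ⟨A, A_submanifold, ?_⟩
  rintro ⟨M, hM, hunion⟩
  let S : ℕ → Set (ℕ → Bool) := fun i => {e | rho (Phi e) ∈ M i}
  have hcont : Continuous (fun e => rho (Phi e)) := continuous_rho.comp continuous_Phi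
  have hS : ⋃ i, closure (S i) = Set.univ := by
    refine eq_univ_of_forall fun e => ?_
    have h1 : rho (Phi e) ∈ ⋃ i, M i := by rw [hunion]; exact rho_mem (w_Phi e)
    obtain ⟨i, hi⟩ := mem_iUnion.1 h1
    exact mem_iUnion.2 ⟨i, subset_closure hi⟩
  obtain ⟨i, e0, he0⟩ := nonempty_interior_of_iUnion_of_closed (fun i => isClosed_closure) hS
  have hOopen : IsOpen (interior (closure (S i))) := isOpen_interior
  obtain ⟨e1, he1O, he1S⟩ : (interior (closure (S i)) ∩ S i).Nonempty := by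
    have := mem_closure_iff.1 (interior_subset he0) _ hOopen he0
    exact this
  obtain ⟨m, hMi⟩ := hM i
  obtain ⟨U, G, hU, hpU, hG, hsurj, hMU⟩ := hMi _ he1S
  have hO' : ∀ e ∈ interior (closure (S i)), rho (Phi e) ∈ U → rho (Phi e) ∈ M i := by
    intro e heO heU
    have hfreq : ∃ᶠ e' in 𝓝 e, e' ∈ S i := mem_closure_iff_frequently.1 (interior_subset heO)
    have hevU : ∀ᶠ e' in 𝓝 e, rho (Phi e') ∈ U :=
      hcont.continuousAt.eventually (hU.mem_nhds heU)
    have hGc : ContinuousAt (fun e' => G (rho (Phi e'))) e := by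
      have h2 : ContinuousAt G (rho (Phi e)) := (hG.continuousOn.continuousAt (hU.mem_nhds heU))
      exact ContinuousAt.comp (f := fun e' => rho (Phi e')) h2 hcont.continuousAt
    have hG0 : G (rho (Phi e)) = 0 := by
      by_contra hne
      have h3 : ∀ᶠ e' in 𝓝 e, G (rho (Phi e')) ≠ 0 := hGc.eventually_ne hne
      obtain ⟨e', he'S, he'U, he'ne⟩ := (hfreq.and_eventually (hevU.and h3)).exists
      apply he'ne
      have : rho (Phi e') ∈ M i ∩ U := ⟨he'S, he'U⟩
      rw [hMU] at this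
      exact this.2
    have : rho (Phi e) ∈ {y | y ∈ U ∧ G y = 0} := ⟨heU, hG0⟩
    rw [← hMU] at this
    exact this.1
  have hWopen : IsOpen (interior (closure (S i)) ∩ (fun e => rho (Phi e)) ⁻¹' U) :=
    hOopen.inter (hU.preimage hcont)
  obtain ⟨I, u, hu, hIu⟩ := isOpen_pi_iff.1 hWopen e1 ⟨he1O, hpU⟩
  obtain ⟨n, hn⟩ : ∃ n, ∀ i ∈ I, i < n := ⟨I.sup id + 1, fun i hi =>
    Nat.lt_succ_of_le (Finset.le_sup (f := id) hi)⟩
  have hcyl : ∀ e : ℕ → Bool, (∀ j, j < n → e j = e1 j) → rho (Phi e) ∈ M i := by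
    intro e he
    have : e ∈ interior (closure (S i)) ∩ (fun e => rho (Phi e)) ⁻¹' U := by
      apply hIu
      intro j hj
      rw [he j (hn j hj)]
      exact (hu j hj).2
    exact hO' e this.1 this.2
  refine no_submanifold hMi (fun z hz => hunion ▸ mem_iUnion.2 ⟨i, hz⟩)
    (e := fun j => if j < n then e1 j else decide (j ≠ n)) (n := n) (by simp) ?_ ?_
  · intro j hj
    rw [if_neg (by omega)]
    simp
    omega
  · intro e he
    apply hcyl
    intro j hj
    rw [he j hj.le, if_pos hj]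

end

end Pool.Agent.Results.MP_5de00f_gt.NotCountableUnion
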